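import Pool.Agent.L5helper88.NS.SysBdd

/-!
# The product of a variable and a polynomial computed by nested systems
-/

set_option autoImplicit false

open Finset MvPolynomial Filter

namespace Pool.Agent.L5helper59.ZT

open Pool.Agent.L5helper60.LA Pool.Agent.L5helper88.CP Pool.Agent.L5helper88.NS

/-- L9 -/
theorem bdd_mul_var {τ σ : Type} [Fintype τ] [DecidableEq τ] [Fintype σ] [DecidableEq σ]
    {l : List (RF ℂ τ)} {s : List ℕ} (hl : Sys (xv ℂ : τ → RF ℂ τ) l s)
    (t : List (ℕ × ℕ)) (ht : ∀ a ∈ t, 1 ≤ a.2) (hts : t.map Prod.fst = s)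
    (f : MvPolynomial τ ℂ)
    (hf : algebraMap (MvPolynomial τ ℂ) (RF ℂ τ) f ∈ Av (xv ℂ) {b | b ∈ l}) :
    Bdd σ ((3 * (W t : ℝ)) ^ (Fintype.card σ) * (4 * PR (fun a b => (1 + (b : ℝ) / a) ^ 2) t))
      (X none * rename some f : MvPolynomial (Option τ) ℂ) := by
  obtain ⟨Δ, hΔ, H⟩ := transfer_sys (σ := σ) hl
  refine ⟨rename some Δ, ?_, fun a b hab c S hS => ?_⟩
  · intro h0
    exact hΔ (rename_injective _ (Option.some_injective _) (by rw [h0, map_zero]))
  · have hren : ∀ p : MvPolynomial τ ℂ, aeval (fun j => aff (a j) (b j)) (rename some p) =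
        aeval (fun j => aff (a (some j)) (b (some j))) p := fun p => by
      rw [aeval_rename]
      rfl
    rw [hren] at hab
    obtain ⟨l', hl', hll⟩ := H _ hab
    obtain ⟨w, hw1, hw2⟩ := av_val hll hf
    have h1 := hw2.unique (Val.poly f)
    rw [h1] at hw1
    have hl'' := hl'.change (xs_aff_mem (fun j => a (some j)) (fun j => b (some j)))
    have hw1' := av_change (xs_aff_mem (fun j => a (some j)) (fun j => b (some j))) _ hw1
    have hu : algebraMap (MvPolynomial σ ℂ) (RF ℂ σ) (aff (a none) (b none)) ∈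
        Av (xv ℂ : σ → RF ℂ σ) {b | b ∈ l'} :=
      Av_mono (Set.empty_subset _) (xs_aff_mem a b none)
    set v : RF ℂ σ := algebraMap (MvPolynomial σ ℂ) (RF ℂ σ)
      (aeval (fun j => aff (a (some j)) (b (some j))) f) with hv
    set u : RF ℂ σ := algebraMap (MvPolynomial σ ℂ) (RF ℂ σ) (aff (a none) (b none)) with hu'
    have hsys : Sys (xv ℂ : σ → RF ℂ σ) (List.ofFn (fun _ : Fin 1 => u * v) ++ l') (1 :: s) :=
      Sys.solve l' s 1 (fun _ _ => 1) (fun _ => u * v) (fun _ => u * v) hl''
        (fun _ _ => av_one) (fun _ => Q_mul hu hw1') (by simp [Matrix.det_unique])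
        (fun i => by simp)
    have hmem : algebraMap (MvPolynomial σ ℂ) (RF ℂ σ)
        (aeval (fun j => aff (a j) (b j)) (X none * rename some f)) ∈
        Av (xv ℂ : σ → RF ℂ σ) {b | b ∈ List.ofFn (fun _ : Fin 1 => u * v) ++ l'} := by
      rw [map_mul, aeval_X, hren, map_mul]
      exact av_mem (by simp [hu', hv])
    have hW : 1 ≤ W t := W_pos ht
    have hW' : (0 : ℝ) < (W t : ℝ) := by exact_mod_cast hW
    have key := sys_bound hsys ((1, 1) :: t) (by
      intro x hx
      rcases List.mem_cons.1 hx with rfl | hx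
      · exact le_rfl
      · exact ht x hx) (by simp [hts]) _ hmem c S hS
    have e1 : W ((1, 1) :: t) = W t := by simp [W]
    have e2 : PR (fun a b => (1 + (b : ℝ) / a) ^ 2) ((1, 1) :: t) =
        4 * PR (fun a b => (1 + (b : ℝ) / a) ^ 2) t := by
      simp only [PR, e1]
      rw [div_self hW'.ne']
      norm_num
    rw [e1, e2] at key
    exact key

end Pool.Agent.L5helper59.ZT
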